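import Pool.Agent.U312.NE.Char0

/-!
# Every minimal non-Engel variety of associative rings is a Cross variety

Rings are associative and not necessarily unital. A variety of rings is given by a set `E` of pairs of
terms in the language `(+, -, 0, *)`, its identities. It is Engel if for some `n ≥ 1` its rings satisfy
`[x, y, …, y] = 0` (`n` times `y`); it is minimal non-Engel if it is not Engel and all its proper
subvarieties are Engel. A Cross variety is a finitely based locally finite variety with finitely
many critical rings up to isomorphism.

**Theorem.** Every minimal non-Engel variety is a Cross variety. Moreover its rings satisfy, for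
some prime number `p` and `q = p ^ k`, `k ≥ 1`, the identities `p x = 0` and `g h = g z h = 0` for all `g`
and `h` of the form `x ^ q - x` or `x y - y x`. Every variety that is not Engel contains a Cross variety
that is not Engel.

The proof. Let `W (p, q)` be the variety with the identities above. All its subvarieties are Cross
varieties. It remains to show that a variety `V` is Engel if all `V ∩ W (p, q)` are. First, the rings of `V`
in which the square of the commutator ideal is zero satisfy an Engel identity. It follows that the
prime rings of `V` have no zero divisors. If `V` is not Engel then it contains a ring `A` with generators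
`x`, `y` and with all `e_n = [x, y, …, y]` non-zero; let `I` be an ideal maximal among the ideals that
contain no `e_n`. Then `A / I` is prime: otherwise some `u = e_n` generates modulo `I` an ideal with square
zero, and the ring generated by `u` and `y` satisfies the Engel identity, so that `e_(n + m) ∈ I` for
some `m`. So `A / I` has no zero divisors; its characteristic is a prime number `p` or it is
torsion-free. It satisfies a non-trivial polynomial identity, since the free ring of `V` does not have
the ring of integral matrices generated by `e_01` and `e_11` as an image. So it has a representation by matrices over a field in which `[x, y]` is not nilpotent,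
and even one over a finite field. But the finite rings of `V` have nilpotent commutators by the
theorem of Wedderburn. This contradiction shows that `V` is Engel.

The parts on `W (p, q)`, on rings with commutator ideal of square zero, on finite rings and on the
representations in characteristic `p` are in the starting library (`Pool/Agent/H854R3/NE`, with the
linearisation of identities from `Pool/Agent/H67/PI`), which did not contain the conclusion. New are the
reduction to prime rings (`Pool/Agent/U312/NE/Zorn.lean`) and the case of characteristic zero
(`Poly0.lean`, `Mat0.lean`, `Char0.lean`).

helper312.
-/

set_option autoImplicit false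

namespace Pool.Agent.Results.MP_a5aec7_al.MinimalNonEngelCross

open Pool.Agent.H854R3.NE

/-- **Every minimal non-Engel variety of associative rings is a Cross variety.** -/
theorem result :
    -- every minimal non-Engel variety is a Cross variety, and its rings satisfy the identities of `IsW p k`
    (∀ E : Set (RTerm × RTerm), MinimalNonEngel E → IsCross E ∧
      ∃ p k : ℕ, p.Prime ∧ 1 ≤ k ∧ ∀ (R : Type) [NonUnitalRing R], Models E R → IsW p k R) ∧
    -- every variety that is not Engel contains a Cross variety that is not Engel
    (∀ E : Set (RTerm × RTerm), ¬ IsEngel E →
      ∃ E' : Set (RTerm × RTerm), SubvarietyOf E' E ∧ ¬ IsEngel E' ∧ IsCross E') := by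
  have key : ∀ E : Set (RTerm × RTerm), ¬ IsEngel E →
      ∃ p k : ℕ, p.Prime ∧ 1 ≤ k ∧ ¬ IsEngel (E ∪ WId p (p ^ k)) := by
    intro E h
    by_contra hcon
    push Not at hcon
    exact h (Pool.Agent.U312.NE.engel_of_all hcon)
  refine ⟨fun E h => ⟨Pool.Agent.U312.NE.main h, ?_⟩, fun E h => ?_⟩
  · obtain ⟨p, k, hp, hk, hne⟩ := key E h.1
    refine ⟨p, k, hp, hk, fun R _ hR => ?_⟩
    have h1 : SubvarietyOf (E ∪ WId p (p ^ k)) E := fun R _ hR e he => hR e (Or.inl he)
    have h2 : SubvarietyOf E (E ∪ WId p (p ^ k)) := by
      by_contra hcon
      exact hne (h.2 _ h1 hcon)
    exact models_WId.1 (fun e he => h2 R hR e (Or.inr he))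
  · obtain ⟨p, k, hp, hk, hne⟩ := key E h
    have : Fact p.Prime := ⟨hp⟩
    exact ⟨_, fun R _ hR e he => hR e (Or.inl he), hne,
      cross_of_sub hk (fun R _ hR e he => hR e (Or.inr he))⟩

end Pool.Agent.Results.MP_a5aec7_al.MinimalNonEngelCross
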